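import Mathlib
import Pool.Agent.Helper21.SR.St

/-! Project SR (MP_cc0731_co): module FIN, the final theorem for finite sets of integers. -/

namespace Pool.Agent.Helper22.SR

open Finset
open scoped Pointwise
open Pool.Agent.Helper21.SR
open Pool.Agent.Helper17.WES (D lam)

private theorem card_le_add_FIN (A : Finset ℕ) (hA : A.Nonempty) : #A ≤ #(A + A) := by
  obtain ⟨a, ha⟩ := hA
  refine Finset.card_le_card_of_injOn (fun x => a + x) ?_ ?_
  · intro x hx
    exact Finset.add_mem_add ha hx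
  · intro x _ y _ h
    exact Nat.add_left_cancel h

private theorem card_le_mul_FIN (A : Finset ℕ) (hA : A.Nonempty) (hp : ∀ a ∈ A, 0 < a) :
    #A ≤ #(A * A) := by
  obtain ⟨a, ha⟩ := hA
  refine Finset.card_le_card_of_injOn (fun x => a * x) ?_ ?_
  · intro x hx
    exact Finset.mul_mem_mul ha hx
  · intro x _ y _ h
    exact Nat.eq_of_mul_eq_mul_left (hp a ha) h

private theorem nat_FIN (hEbd : StEbd) (hReg : StReg) (hMain : StMain) (hAsy : StAsy) :
    ∃ c : ℝ, 0 < c ∧ c ≤ 1 / 6 ∧ ∀ A : Finset ℕ, (∀ a ∈ A, 0 < a) → A.Nonempty →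
      c * (#A : ℝ) ^ ((4 : ℝ) / 3 + 1 / 290) ≤ max (#(A + A) : ℝ) (#(A * A) : ℝ) := by
  obtain ⟨n0, h0⟩ := hAsy
  refine ⟨min (1 / 6) (((2 * n0 + 4 : ℕ) : ℝ) ^ (-((4 : ℝ) / 3 + 1 / 290))), ?_,
    min_le_left _ _, ?_⟩
  · apply lt_min (by norm_num)
    apply Real.rpow_pos_of_pos
    positivity
  intro A hp hA
  obtain ⟨c, hc⟩ : ∃ c : ℝ, c = min (1 / 6) (((2 * n0 + 4 : ℕ) : ℝ) ^
    (-((4 : ℝ) / 3 + 1 / 290))) := ⟨_, rfl⟩
  rw [← hc]
  have hc1 : c ≤ 1 / 6 := by rw [hc]; exact min_le_left _ _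
  have hc2 : c ≤ ((2 * n0 + 4 : ℕ) : ℝ) ^ (-((4 : ℝ) / 3 + 1 / 290)) := by
    rw [hc]; exact min_le_right _ _
  have hn1 : 1 ≤ #A := Finset.card_pos.mpr hA
  have hn1' : (1 : ℝ) ≤ (#A : ℝ) := by exact_mod_cast hn1
  obtain ⟨θ, hθ⟩ : ∃ θ : ℝ, θ = (4 : ℝ) / 3 + 1 / 290 := ⟨_, rfl⟩
  rw [← hθ] at hc2 ⊢
  have hpow0 : 0 ≤ (#A : ℝ) ^ θ := Real.rpow_nonneg (by positivity) _
  have hNn := card_le_add_FIN A hA
  have hQn := card_le_mul_FIN A hA hp
  have hNn' : (#A : ℝ) ≤ (#(A + A) : ℝ) := by exact_mod_cast hNn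
  have hQn' : (#A : ℝ) ≤ (#(A * A) : ℝ) := by exact_mod_cast hQn
  by_cases hbig : 32 * (#(A + A) * #(A * A)) ≤ #A ^ 3
  · by_cases hsm : #A < 2 * n0 + 4
    · -- small sets
      have h1 : (#A : ℝ) ^ θ ≤ ((2 * n0 + 4 : ℕ) : ℝ) ^ θ := by
        apply Real.rpow_le_rpow (by positivity) _ (by rw [hθ]; norm_num)
        exact_mod_cast hsm.le
      have h2 : c * (#A : ℝ) ^ θ ≤ ((2 * n0 + 4 : ℕ) : ℝ) ^ (-θ) * ((2 * n0 + 4 : ℕ) : ℝ) ^ θ :=
        mul_le_mul hc2 h1 hpow0 (Real.rpow_nonneg (by positivity) _)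
      have h3 : ((2 * n0 + 4 : ℕ) : ℝ) ^ (-θ) * ((2 * n0 + 4 : ℕ) : ℝ) ^ θ = 1 := by
        rw [← Real.rpow_add (by positivity), neg_add_cancel, Real.rpow_zero]
      rw [h3] at h2
      exact h2.trans ((hn1'.trans hNn').trans (le_max_left _ _))
    · push Not at hsm
      by_contra hcon
      push Not at hcon
      have hmax : max (#(A + A) : ℝ) (#(A * A) : ℝ) ≤ (#A : ℝ) ^ θ := by
        refine hcon.le.trans ?_
        nlinarith
      have hN1 : (#(A + A) : ℝ) ≤ (#A : ℝ) ^ θ := (le_max_left _ _).trans hmax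
      have hQ1 : (#(A * A) : ℝ) ≤ (#A : ℝ) ^ θ := (le_max_right _ _).trans hmax
      obtain ⟨A1, hA1, hcard, M, hM0, hM1, hM2⟩ := hReg A hp hA hbig
      have hcard1 : n0 + 2 ≤ #A1 := by omega
      have hA1ne : A1.Nonempty := Finset.card_pos.mp (by omega)
      have hp1 : ∀ a ∈ A1, 0 < a := fun a ha => hp a (hA1 ha)
      have h2pow : (2 : ℝ) ^ θ ≤ 3 := by
        have e1 : (2 : ℝ) ^ θ ≤ (2 : ℝ) ^ ((3 : ℝ) / 2) := by
          apply Real.rpow_le_rpow_of_exponent_le (by norm_num)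
          rw [hθ]
          norm_num
        have e2 : (2 : ℝ) ^ ((3 : ℝ) / 2) ≤ 3 := by
          have e3 : ((2 : ℝ) ^ ((3 : ℝ) / 2)) ^ 2 = 8 := by
            rw [← Real.rpow_natCast, ← Real.rpow_mul (by norm_num)]
            norm_num
          have e4 : 0 ≤ (2 : ℝ) ^ ((3 : ℝ) / 2) := Real.rpow_nonneg (by norm_num) _
          nlinarith
        exact e1.trans e2
      have hpow : (#A : ℝ) ^ θ ≤ 3 * (#A1 : ℝ) ^ θ := by
        have e1 : (#A : ℝ) ^ θ ≤ (2 * (#A1 : ℝ)) ^ θ := by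
          apply Real.rpow_le_rpow (by positivity) _ (by rw [hθ]; norm_num)
          exact_mod_cast hcard
        rw [Real.mul_rpow (by norm_num) (by positivity)] at e1
        refine e1.trans (mul_le_mul_of_nonneg_right h2pow (Real.rpow_nonneg (by positivity) _))
      have hNle : #(A1 + A1) ≤ #(A + A) := Finset.card_le_card (Finset.add_subset_add hA1 hA1)
      have hQle : #(A1 * A1) ≤ #(A * A) := Finset.card_le_card (Finset.mul_subset_mul hA1 hA1)
      have hNle' : (#(A1 + A1) : ℝ) ≤ (#(A + A) : ℝ) := by exact_mod_cast hNle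
      have hQle' : (#(A1 * A1) : ℝ) ≤ (#(A * A) : ℝ) := by exact_mod_cast hQle
      refine h0 (#A1) (#(A1 + A1)) (#(A1 * A1)) (Eb A1) (by omega)
        (card_le_add_FIN A1 hA1ne) (card_le_mul_FIN A1 hA1ne hp1) ?_ ?_ ?_ ?_
      · rw [← hθ]
        linarith
      · rw [← hθ]
        linarith
      · intro M' ρ hM' hρ h
        exact hEbd A1 M' ρ hp1 hA1ne hM' hρ h
      · intro f ρ hf hρ
        exact hMain A1 M f ρ hp1 (by omega) hM0 hM1 hM2 hf hρ
  · push Not at hbig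
    obtain ⟨m, hm⟩ : ∃ m : ℝ, m = max (#(A + A) : ℝ) (#(A * A) : ℝ) := ⟨_, rfl⟩
    have hm1 : (#(A + A) : ℝ) ≤ m := by rw [hm]; exact le_max_left _ _
    have hm2 : (#(A * A) : ℝ) ≤ m := by rw [hm]; exact le_max_right _ _
    have hm0 : 0 ≤ m := (by positivity : (0 : ℝ) ≤ (#(A + A) : ℝ)).trans hm1
    rw [← hm]
    have hb : (#A : ℝ) ^ 3 ≤ 36 * m ^ 2 := by
      have e1 : (#A : ℝ) ^ 3 ≤ 32 * ((#(A + A) : ℝ) * (#(A * A) : ℝ)) := by
        exact_mod_cast hbig.le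
      have e2 : (#(A + A) : ℝ) * (#(A * A) : ℝ) ≤ m * m :=
        mul_le_mul hm1 hm2 (by positivity) hm0
      nlinarith
    have h32 : (#A : ℝ) ^ ((3 : ℝ) / 2) ≤ 6 * m := by
      have e3 : ((#A : ℝ) ^ ((3 : ℝ) / 2)) ^ 2 = (#A : ℝ) ^ 3 := by
        rw [← Real.rpow_natCast, ← Real.rpow_mul (by positivity)]
        rw [← Real.rpow_natCast]
        norm_num
      apply le_of_sq_le_sq _ (by positivity)
      rw [e3]
      linarith
    have hle : (#A : ℝ) ^ θ ≤ (#A : ℝ) ^ ((3 : ℝ) / 2) := by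
      apply Real.rpow_le_rpow_of_exponent_le hn1'
      rw [hθ]
      norm_num
    nlinarith
where
  le_of_sq_le_sq {a b : ℝ} (h : a ^ 2 ≤ b ^ 2) (hb : 0 ≤ b) : a ≤ b := by
    by_contra hc
    push Not at hc
    nlinarith

/-- the part of sign `σ` of a set of integers -/
private theorem part_FIN (A : Finset ℤ) (σ : ℤ) (hσ : σ = 1 ∨ σ = -1) :
    ∃ B : Finset ℕ, (∀ b ∈ B, 0 < b) ∧ #B = #(A.filter (fun x => 0 < σ * x)) ∧
      #(B + B) ≤ #(A + A) ∧ #(B * B) ≤ #(A * A) := by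
  have hσ2 : σ * σ = 1 := by rcases hσ with h | h <;> rw [h] <;> norm_num
  have key : ∀ x : ℤ, 0 < σ * x → ((x.natAbs : ℕ) : ℤ) = σ * x := by
    intro x hx
    rcases hσ with h | h
    · rw [h, one_mul] at hx ⊢
      omega
    · rw [h] at hx ⊢
      omega
  refine ⟨(A.filter (fun x => 0 < σ * x)).image Int.natAbs, ?_, ?_, ?_, ?_⟩
  · intro b hb
    obtain ⟨x, hx, rfl⟩ := Finset.mem_image.mp hb
    have h1 := (Finset.mem_filter.mp hx).2
    have h2 := key x h1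
    omega
  · apply Finset.card_image_of_injOn
    intro x hx y hy hxy
    have h1 := key x (Finset.mem_filter.mp (Finset.mem_coe.mp hx)).2
    have h2 := key y (Finset.mem_filter.mp (Finset.mem_coe.mp hy)).2
    have h3 : σ * x = σ * y := by
      rw [← h1, ← h2]
      exact_mod_cast hxy
    have h4 : σ * (σ * x) = σ * (σ * y) := by rw [h3]
    rw [← mul_assoc, ← mul_assoc, hσ2, one_mul, one_mul] at h4
    exact h4
  · refine Finset.card_le_card_of_injOn (fun k : ℕ => σ * (k : ℤ)) ?_ ?_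
    · intro k hk
      obtain ⟨b, hb, b', hb', rfl⟩ := Finset.mem_add.mp (Finset.mem_coe.mp hk)
      obtain ⟨x, hx, rfl⟩ := Finset.mem_image.mp hb
      obtain ⟨y, hy, rfl⟩ := Finset.mem_image.mp hb'
      have hx' := Finset.mem_filter.mp hx
      have hy' := Finset.mem_filter.mp hy
      have e : σ * (((x.natAbs + y.natAbs : ℕ) : ℤ)) = x + y := by
        push_cast
        rw [← Int.natCast_natAbs, ← Int.natCast_natAbs, key x hx'.2, key y hy'.2]
        linear_combination (x + y) * hσ2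
      show σ * (((x.natAbs + y.natAbs : ℕ) : ℤ)) ∈ (A + A : Finset ℤ)
      rw [e]
      exact Finset.add_mem_add hx'.1 hy'.1
    · intro k _ l _ h
      have h2 : σ * (k : ℤ) = σ * (l : ℤ) := h
      have h4 : σ * (σ * (k : ℤ)) = σ * (σ * (l : ℤ)) := by rw [h2]
      rw [← mul_assoc, ← mul_assoc, hσ2, one_mul, one_mul] at h4
      exact_mod_cast h4
  · refine Finset.card_le_card_of_injOn (fun k : ℕ => (k : ℤ)) ?_ ?_
    · intro k hk
      obtain ⟨b, hb, b', hb', rfl⟩ := Finset.mem_mul.mp (Finset.mem_coe.mp hk)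
      obtain ⟨x, hx, rfl⟩ := Finset.mem_image.mp hb
      obtain ⟨y, hy, rfl⟩ := Finset.mem_image.mp hb'
      have hx' := Finset.mem_filter.mp hx
      have hy' := Finset.mem_filter.mp hy
      have e : (((x.natAbs * y.natAbs : ℕ) : ℤ)) = x * y := by
        push_cast
        rw [← Int.natCast_natAbs, ← Int.natCast_natAbs, key x hx'.2, key y hy'.2]
        linear_combination (x * y) * hσ2
      show (((x.natAbs * y.natAbs : ℕ) : ℤ)) ∈ (A * A : Finset ℤ)
      rw [e]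
      exact Finset.mul_mem_mul hx'.1 hy'.1
    · intro k _ l _ h
      have h2 : (k : ℤ) = (l : ℤ) := h
      exact_mod_cast h2

/-- FIN. -/
theorem hFin (hEbd : StEbd) (hReg : StReg) (hMain : StMain) (hAsy : StAsy) : StFin := by
  obtain ⟨c, hc0, hc1, hc⟩ := nat_FIN hEbd hReg hMain hAsy
  refine ⟨c / 9, by positivity, ?_⟩
  intro A
  obtain ⟨θ, hθ⟩ : ∃ θ : ℝ, θ = (4 : ℝ) / 3 + 1 / 290 := ⟨_, rfl⟩
  rw [← hθ] at hc ⊢
  have hθ0 : 0 < θ := by rw [hθ]; norm_num
  have hθ2 : θ ≤ 2 := by rw [hθ]; norm_num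
  rcases Finset.eq_empty_or_nonempty A with hA | hA
  · rw [hA]
    simp [Real.zero_rpow hθ0.ne']
  have hAA : 1 ≤ #(A + A) := Finset.card_pos.mpr (hA.add hA)
  have hAA' : (1 : ℝ) ≤ (#(A + A) : ℝ) := by exact_mod_cast hAA
  by_cases h3 : #A ≤ 2
  · have h1 : (#A : ℝ) ^ θ ≤ 4 := by
      have e1 : (#A : ℝ) ^ θ ≤ (2 : ℝ) ^ θ := by
        apply Real.rpow_le_rpow (by positivity) _ hθ0.le
        exact_mod_cast h3
      have e2 : (2 : ℝ) ^ θ ≤ (2 : ℝ) ^ (2 : ℝ) :=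
        Real.rpow_le_rpow_of_exponent_le (by norm_num) hθ2
      have e3 : (2 : ℝ) ^ (2 : ℝ) = 4 := by norm_num
      linarith
    have h0 : 0 ≤ (#A : ℝ) ^ θ := Real.rpow_nonneg (by positivity) _
    refine le_trans ?_ (hAA'.trans (le_max_left _ _))
    nlinarith
  · push Not at h3
    obtain ⟨B1, p1, q1, r1, s1⟩ := part_FIN A 1 (Or.inl rfl)
    obtain ⟨B2, p2, q2, r2, s2⟩ := part_FIN A (-1) (Or.inr rfl)
    have hsum : #A ≤ #B1 + #B2 + 1 := by
      rw [q1, q2]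
      have hsub : A ⊆ (A.filter (fun x => 0 < 1 * x)) ∪ (A.filter (fun x => 0 < (-1) * x)) ∪ {0} := by
        intro x hx
        rcases lt_trichotomy x 0 with h | h | h
        · refine Finset.mem_union_left _ (Finset.mem_union_right _ ?_)
          exact Finset.mem_filter.mpr ⟨hx, by omega⟩
        · refine Finset.mem_union_right _ ?_
          simp [h]
        · refine Finset.mem_union_left _ (Finset.mem_union_left _ ?_)
          exact Finset.mem_filter.mpr ⟨hx, by omega⟩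
      refine (Finset.card_le_card hsub).trans ?_
      refine (Finset.card_union_le _ _).trans ?_
      have := Finset.card_union_le (A.filter (fun x => 0 < 1 * x)) (A.filter (fun x => 0 < (-1) * x))
      simp only [Finset.card_singleton]
      omega
    have main : ∀ B : Finset ℕ, (∀ b ∈ B, 0 < b) → #(B + B) ≤ #(A + A) → #(B * B) ≤ #(A * A) →
        #A ≤ 3 * #B → c / 9 * (#A : ℝ) ^ θ ≤ max (#(A + A) : ℝ) (#(A * A) : ℝ) := by
      intro B hB1 hB2 hB3 hB4
      have hBne : B.Nonempty := Finset.card_pos.mp (by omega)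
      have h1 := hc B hB1 hBne
      have h2 : max (#(B + B) : ℝ) (#(B * B) : ℝ) ≤ max (#(A + A) : ℝ) (#(A * A) : ℝ) :=
        max_le_max (by exact_mod_cast hB2) (by exact_mod_cast hB3)
      have h4 : (#A : ℝ) ^ θ ≤ 9 * (#B : ℝ) ^ θ := by
        have e1 : (#A : ℝ) ^ θ ≤ (3 * (#B : ℝ)) ^ θ := by
          apply Real.rpow_le_rpow (by positivity) _ hθ0.le
          exact_mod_cast hB4
        rw [Real.mul_rpow (by norm_num) (by positivity)] at e1
        have e2 : (3 : ℝ) ^ θ ≤ 9 := by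
          have e3 : (3 : ℝ) ^ θ ≤ (3 : ℝ) ^ (2 : ℝ) :=
            Real.rpow_le_rpow_of_exponent_le (by norm_num) hθ2
          have e4 : (3 : ℝ) ^ (2 : ℝ) = 9 := by norm_num
          linarith
        exact e1.trans (mul_le_mul_of_nonneg_right e2 (Real.rpow_nonneg (by positivity) _))
      calc c / 9 * (#A : ℝ) ^ θ ≤ c / 9 * (9 * (#B : ℝ) ^ θ) :=
            mul_le_mul_of_nonneg_left h4 (by positivity)
        _ = c * (#B : ℝ) ^ θ := by ring
        _ ≤ _ := h1.trans h2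
    rcases le_total (#B1) (#B2) with h | h
    · exact main B2 p2 r2 s2 (by omega)
    · exact main B1 p1 r1 s1 (by omega)

end Pool.Agent.Helper22.SR
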